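import Pool.Agent.R528.RM.MaxFinal

/-!
Shanks' function `p(g)`, the first member of a random set after a run of `g` missing integers.
-/

set_option autoImplicit false

open Filter Topology

namespace Pool.Agent.R502.SH

open Pool.Agent.R528.RM

lemma ll_def (x : ℝ) : ll x = Real.log (Real.log x) := rfl

/-- basic facts for large `s` -/
lemma ev_facts : ∀ᶠ s : ℝ in atTop, 1000 ≤ s ∧ 1 ≤ ll s ∧ ll s ≤ Real.log s ∧ 2 ≤ Real.log s ∧
    ll (2 * s) ≤ ll s + 1 := by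
  have t1 := Real.tendsto_log_atTop
  have h1 : ∀ᶠ L : ℝ in atTop, 1 ≤ ll L := (t1.comp t1).eventually_ge_atTop 1
  filter_upwards [eventually_ge_atTop (1000 : ℝ), h1, t1.eventually_ge_atTop 2] with L hL h1 h2
  have h3 : ll L ≤ Real.log L := by
    have := Real.log_le_sub_one_of_pos (show 0 < Real.log L by linarith)
    unfold ll
    linarith
  refine ⟨hL, h1, h3, h2, ?_⟩
  have h5 : Real.log (2 * L) ≤ 2 * Real.log L := by
    have e : 2 * Real.log L = Real.log (L ^ 2) := by rw [Real.log_pow]; norm_num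
    rw [e]
    exact Real.log_le_log (by linarith) (by nlinarith)
  have h6 : Real.log (2 * Real.log L) = Real.log 2 + ll L := by
    rw [Real.log_mul (by norm_num) (by linarith)]
    rfl
  have h7 : ll (2 * L) ≤ Real.log (2 * Real.log L) := by
    have h8 : 0 < Real.log (2 * L) := Real.log_pos (by linarith)
    exact Real.log_le_log h8 h5
  have h8 : Real.log 2 ≤ 1 := by
    have := Real.log_two_lt_d9
    linarith
  linarith

lemma ev_logsq (C ε : ℝ) (hε : 0 < ε) : ∀ᶠ s : ℝ in atTop, C * Real.log s ^ 2 < ε * s := by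
  obtain ⟨D, hD⟩ : ∃ D : ℝ, D = |C| + 1 := ⟨_, rfl⟩
  have hD0 : 0 < D := by rw [hD]; positivity
  have h := (Real.isLittleO_pow_log_id_atTop (n := 2)).def (show (0 : ℝ) < ε / D by positivity)
  filter_upwards [h, eventually_gt_atTop (1 : ℝ)] with s hs h1
  rw [Real.norm_of_nonneg (by positivity), id, Real.norm_of_nonneg (by linarith)] at hs
  have hl : 0 < Real.log s := Real.log_pos h1
  have h2 : D * Real.log s ^ 2 ≤ ε * s := by
    calc D * Real.log s ^ 2 ≤ D * (ε / D * s) := mul_le_mul_of_nonneg_left hs hD0.le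
      _ = ε * s := by field_simp
  have h3 : C * Real.log s ^ 2 < D * Real.log s ^ 2 := by
    apply mul_lt_mul_of_pos_right _ (by positivity)
    rw [hD]
    linarith [le_abs_self C]
  linarith

/-- the upper bound -/
lemma ev_U (ε : ℝ) (hε : 0 < ε) : ∀ᶠ s : ℝ in atTop, ∀ L : ℝ,
    L = s + 1 / 2 * Real.log s + (1 / 2 + ε) * ll s →
    s ^ 2 < L ^ 2 - L * (Real.log L + (1 + ε) * ll L) := by
  filter_upwards [ev_facts, ev_logsq (3 * (1 + ε) * (2 + ε)) ε hε, ev_logsq (1 + ε) 1 one_pos]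
    with s hf hq hq1 L hL
  obtain ⟨hs, hb1, hba, ha2, -⟩ := hf
  obtain ⟨a, ha⟩ : ∃ a, a = Real.log s := ⟨_, rfl⟩
  obtain ⟨b, hb⟩ : ∃ b, b = ll s := ⟨_, rfl⟩
  obtain ⟨u, hu⟩ : ∃ u, u = 1 / 2 * a + (1 / 2 + ε) * b := ⟨_, rfl⟩
  rw [← ha] at hba ha2 hq hq1 hL
  rw [← hb] at hb1 hba hL
  have hLu : L = s + u := by rw [hL, hu]; ring
  have hu0 : 0 ≤ u := by rw [hu]; positivity
  have hu1 : u ≤ (1 + ε) * a := by
    rw [hu]
    nlinarith
  obtain ⟨v, hv⟩ : ∃ v, v = u / s := ⟨_, rfl⟩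
  have hs0 : 0 < s := by linarith
  have hv0 : 0 ≤ v := by rw [hv]; positivity
  have hvs : v * s = u := by rw [hv]; field_simp
  have hv1 : v ≤ 1 := by
    rw [hv, div_le_one hs0]
    nlinarith
  have hlogL : Real.log L ≤ a + v := by
    have h1 : L = s * (1 + v) := by rw [hLu, ← hvs]; ring
    rw [h1, Real.log_mul hs0.ne' (by positivity), ← ha]
    have := Real.log_le_sub_one_of_pos (show 0 < 1 + v by positivity)
    linarith
  have hLs : s ≤ L := by linarith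
  have hlogL0 : 0 < Real.log L := Real.log_pos (by linarith)
  have hllL : ll L ≤ b + v := by
    have h1 : Real.log (Real.log L) ≤ Real.log (a * (1 + v)) := by
      apply Real.log_le_log hlogL0
      nlinarith
    rw [Real.log_mul (by linarith) (by positivity)] at h1
    have h2 := Real.log_le_sub_one_of_pos (show 0 < 1 + v by positivity)
    rw [hb, ll_def, ll_def, ← ha]
    linarith
  have h1 : L * (Real.log L + (1 + ε) * ll L) ≤ (s + u) * (a + (1 + ε) * b + (2 + ε) * v) := by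
    rw [hLu] at hlogL hllL ⊢
    apply mul_le_mul_of_nonneg_left _ (by linarith)
    nlinarith
  have h2 : (s + u) * (a + (1 + ε) * b + (2 + ε) * v) =
      s * a + (1 + ε) * s * b + (2 + ε) * (v * s) + u * (a + (1 + ε) * b) + (2 + ε) * u * v := by
    ring
  rw [h2, hvs] at h1
  have h3 : (2 + ε) * u * v ≤ (2 + ε) * u * 1 := mul_le_mul_of_nonneg_left hv1 (by positivity)
  have h4 : a + (1 + ε) * b ≤ (2 + ε) * a := by nlinarith
  have h5 : u * (a + (1 + ε) * b) ≤ (1 + ε) * a * ((2 + ε) * a) :=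
    mul_le_mul hu1 h4 (by nlinarith) (by positivity)
  have h6 : (2 + ε) * u ≤ (2 + ε) * ((1 + ε) * a) := mul_le_mul_of_nonneg_left hu1 (by positivity)
  have h7 : (2 + ε) * ((1 + ε) * a) * 2 ≤ (2 + ε) * (1 + ε) * a * a := by
    have : (2 + ε) * ((1 + ε) * a) * 2 = ((2 + ε) * (1 + ε) * a) * 2 := by ring
    rw [this]
    exact mul_le_mul_of_nonneg_left ha2 (by positivity)
  have h8 : ε * s * 1 ≤ ε * s * b := mul_le_mul_of_nonneg_left hb1 (by positivity)
  have h9 : 2 * s * u = s * a + (1 + 2 * ε) * s * b := by rw [hu]; ring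
  have h10 : L ^ 2 = s ^ 2 + 2 * s * u + u ^ 2 := by rw [hLu]; ring
  have h11 : 0 ≤ u ^ 2 := sq_nonneg u
  have h12 : (1 + ε) * a * ((2 + ε) * a) = (1 + ε) * (2 + ε) * a ^ 2 := by ring
  have h13 : (2 + ε) * (1 + ε) * a * a = (1 + ε) * (2 + ε) * a ^ 2 := by ring
  have h14 : 0 ≤ (1 + ε) * (2 + ε) * a ^ 2 := by positivity
  rw [h10, h9]
  nlinarith

/-- the upper bound is attained -/
lemma ev_U' (ε : ℝ) (hε : 0 < ε) (hε1 : ε ≤ 1) : ∀ᶠ L : ℝ in atTop, ∀ s : ℝ, 100 ≤ s →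
    s ^ 2 ≤ L ^ 2 - L * (Real.log L + (1 - ε) * ll L) + 1 →
    s + 1 / 2 * Real.log s + 1 / 2 * (1 - ε) * ll s ≤ L := by
  filter_upwards [ev_facts, ev_logsq 2 1 one_pos] with L hf hq s hs h
  obtain ⟨hL, hb1, hba, ha2, -⟩ := hf
  obtain ⟨w, hw⟩ : ∃ w, w = 1 / 2 * (Real.log L + (1 - ε) * ll L) := ⟨_, rfl⟩
  have hw1 : 1 ≤ w := by
    rw [hw]
    have : 0 ≤ (1 - ε) * ll L := mul_nonneg (by linarith) (by linarith)
    linarith
  have hwL : w ≤ L := by
    rw [hw]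
    have : (1 - ε) * ll L ≤ 1 * Real.log L := by
      apply mul_le_mul (by linarith) hba (by linarith) (by norm_num)
    nlinarith
  have h1 : s ^ 2 ≤ (L - w) ^ 2 := by
    have h2 : (L - w) ^ 2 = L ^ 2 - L * (2 * w) + w ^ 2 := by ring
    have h3 : L * (2 * w) = L * (Real.log L + (1 - ε) * ll L) := by rw [hw]; ring
    rw [h2, h3]
    nlinarith
  have h2 : s ≤ L - w := (pow_le_pow_iff_left₀ (by linarith) (by linarith) two_ne_zero).1 h1
  have hsL : s ≤ L := by linarith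
  have h3 : Real.log s ≤ Real.log L := Real.log_le_log (by linarith) hsL
  have he : Real.exp 1 ≤ s := by
    have := Real.exp_one_lt_d9
    linarith
  have h4 : ll s ≤ ll L := ll_mono he hsL
  have h5 : (1 - ε) * ll s ≤ (1 - ε) * ll L := mul_le_mul_of_nonneg_left h4 (by linarith)
  rw [hw] at h2
  linarith

/-- the lower bound -/
lemma ev_L (ε : ℝ) (hε : 0 < ε) : ∀ᶠ L : ℝ in atTop, ∀ s M : ℝ, L ≤ M → 0 ≤ s →
    s ^ 2 ≤ L ^ 2 + (1 + ε) * L * ll L → 100 ≤ s → s - 1 / 2 * (1 + ε) * ll s ≤ M := by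
  filter_upwards [ev_facts] with L hf s M hLM hs0 h hs
  obtain ⟨hL, hb1, hba, ha2, -⟩ := hf
  have he : Real.exp 1 ≤ s := by
    have := Real.exp_one_lt_d9
    linarith
  have hlls : 0 ≤ ll s := by
    have h1 : 1 ≤ Real.log s := by
      rw [← Real.log_exp 1]
      exact Real.log_le_log (Real.exp_pos 1) he
    exact Real.log_nonneg h1
  rcases le_or_gt s L with h1 | h1
  · have : 0 ≤ 1 / 2 * (1 + ε) * ll s := by positivity
    linarith
  · have h2 : s ^ 2 ≤ (L + 1 / 2 * (1 + ε) * ll L) ^ 2 := by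
      have h3 : (L + 1 / 2 * (1 + ε) * ll L) ^ 2 = L ^ 2 + (1 + ε) * L * ll L +
        (1 / 2 * (1 + ε) * ll L) ^ 2 := by ring
      rw [h3]
      have := sq_nonneg (1 / 2 * (1 + ε) * ll L)
      linarith
    have h3 : s ≤ L + 1 / 2 * (1 + ε) * ll L :=
      (pow_le_pow_iff_left₀ hs0 (by positivity) two_ne_zero).1 h2
    have heL : Real.exp 1 ≤ L := by
      have := Real.exp_one_lt_d9
      linarith
    have h4 : ll L ≤ ll s := ll_mono heL h1.le
    have h5 : 1 / 2 * (1 + ε) * ll L ≤ 1 / 2 * (1 + ε) * ll s :=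
      mul_le_mul_of_nonneg_left h4 (by positivity)
    linarith

/-- the lower bound is attained -/
lemma ev_L' (ε : ℝ) (hε : 0 < ε) (hε1 : ε ≤ 1 / 4) : ∀ᶠ L : ℝ in atTop, ∀ s : ℝ, 0 ≤ s →
    L ^ 2 + (1 - ε) * L * ll L ≤ s ^ 2 → s ^ 2 ≤ L ^ 2 + 2 * L * ll L →
    Real.log (Real.exp L + s ^ 2 + 1) ≤ s - (1 / 2 - ε) * ll s := by
  have h8 : ∀ᶠ x : ℝ in atTop, 8 * x ^ 2 ≤ Real.exp x := by
    have := (Real.isLittleO_pow_exp_atTop (n := 2)).def (show (0 : ℝ) < 1 / 8 by norm_num)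
    filter_upwards [this] with x hx
    rw [Real.norm_of_nonneg (by positivity), Real.norm_of_nonneg (Real.exp_pos _).le] at hx
    linarith
  filter_upwards [ev_facts, ev_logsq 1 (2 * ε) (by linarith), h8, ev_ll (ε / 4) 2 (by linarith),
    ev_logsq 1 1 one_pos] with L hf hq h8 h9 hq1 s hs0 hlow hup
  obtain ⟨hL, hb1, hba, ha2, h2L⟩ := hf
  have hbb : ll L ^ 2 ≤ Real.log L ^ 2 := pow_le_pow_left₀ (by linarith) hba 2
  -- lower bound of s
  have h1 : (L + (1 / 2 - 3 / 4 * ε) * ll L) ^ 2 ≤ s ^ 2 := by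
    refine le_trans ?_ hlow
    have h3 : (L + (1 / 2 - 3 / 4 * ε) * ll L) ^ 2 = L ^ 2 + (1 - 3 / 2 * ε) * L * ll L +
        (1 / 2 - 3 / 4 * ε) ^ 2 * ll L ^ 2 := by ring
    rw [h3]
    have h4 : (1 / 2 - 3 / 4 * ε) ^ 2 ≤ 1 / 4 := by nlinarith
    have h5 : (1 / 2 - 3 / 4 * ε) ^ 2 * ll L ^ 2 ≤ 1 / 4 * ll L ^ 2 :=
      mul_le_mul_of_nonneg_right h4 (sq_nonneg _)
    have h6 : 2 * ε * L * 1 ≤ 2 * ε * L * ll L := mul_le_mul_of_nonneg_left hb1 (by positivity)
    nlinarith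
  have h2 : L + (1 / 2 - 3 / 4 * ε) * ll L ≤ s := by
    have h3 : 0 ≤ L + (1 / 2 - 3 / 4 * ε) * ll L := by
      have : 0 ≤ (1 / 2 - 3 / 4 * ε) * ll L := mul_nonneg (by linarith) (by linarith)
      linarith
    exact (pow_le_pow_iff_left₀ h3 hs0 two_ne_zero).1 h1
  -- upper bound of s
  have h4 : s ^ 2 ≤ (2 * L) ^ 2 := by
    refine hup.trans ?_
    have : ll L ≤ L := by nlinarith
    nlinarith
  have h5 : s ≤ 2 * L := (pow_le_pow_iff_left₀ hs0 (by linarith) two_ne_zero).1 h4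
  have hLs : L ≤ s := by
    have : 0 ≤ (1 / 2 - 3 / 4 * ε) * ll L := mul_nonneg (by linarith) (by linarith)
    linarith
  have heL : Real.exp 1 ≤ s := by
    have := Real.exp_one_lt_d9
    linarith
  have h6 : ll s ≤ ll L + 1 := (ll_mono heL h5).trans h2L
  have h7 : (1 / 2 - ε) * ll s ≤ (1 / 2 - ε) * (ll L + 1) :=
    mul_le_mul_of_nonneg_left h6 (by linarith)
  -- the logarithm
  have h10 : Real.exp L + s ^ 2 + 1 ≤ 2 * Real.exp L := by
    nlinarith
  have h11 : Real.log (Real.exp L + s ^ 2 + 1) ≤ L + 1 := by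
    have h12 : Real.log (Real.exp L + s ^ 2 + 1) ≤ Real.log (2 * Real.exp L) := by
      apply Real.log_le_log _ h10
      positivity
    rw [Real.log_mul (by norm_num) (Real.exp_pos _).ne', Real.log_exp] at h12
    have := Real.log_two_lt_d9
    linarith
  nlinarith

end Pool.Agent.R502.SH
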