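import Pool.Agent.R502.SH.Core

/-!
The inversion of the laws for the gaps: Shanks' function.
-/

set_option autoImplicit false

open Filter Topology

namespace Pool.Agent.R502.SH

open Pool.Agent.R528.RM

/-- the first member after a run of at least `g` missing integers (after a member) -/
noncomputable def pg (S : Set ℕ) (g : ℕ) : ℕ := sInf {m : ℕ | ∃ n, m = pn S (n + 1) ∧ g ≤ gap S n}

theorem pg_le {S : Set ℕ} {g n : ℕ} (h : g ≤ gap S n) : pg S g ≤ pn S (n + 1) :=
  Nat.sInf_le ⟨n, rfl, h⟩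

theorem pg_spec {S : Set ℕ} {g : ℕ} (h : ∃ n, g ≤ gap S n) :
    ∃ n, pg S g = pn S (n + 1) ∧ g ≤ gap S n := by
  have h1 : (pg S g) ∈ {m : ℕ | ∃ n, m = pn S (n + 1) ∧ g ≤ gap S n} := by
    apply Nat.sInf_mem
    obtain ⟨n, hn⟩ := h
    exact ⟨_, n, rfl, hn⟩
  exact h1

theorem diff_eq {S : Set ℕ} (hS : S.Infinite) (n : ℕ) :
    pn S (n + 1) = pn S n + gap S n + 1 := by
  have h0 := nth_mono hS (Nat.lt_succ_self n)
  simp only [Nat.succ_eq_add_one] at h0
  unfold gap
  omega

/-- large gaps exist -/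
theorem exists_gap {S : Set ℕ} (hS : S.Infinite)
    (h1 : ∀ ε : ℝ, 0 < ε → (∀ᶠ n in atTop, (gap S n : ℝ) <
        (Real.log (pn S n)) ^ 2 + (1 + ε) * Real.log (pn S n) *
          Real.log (Real.log (Real.log (pn S n)))) ∧
      (∃ᶠ n in atTop, (Real.log (pn S n)) ^ 2 + (1 - ε) * Real.log (pn S n) *
          Real.log (Real.log (Real.log (pn S n))) ≤ gap S n)) (g : ℕ) : ∃ n, g ≤ gap S n := by
  have tL : Tendsto (fun n : ℕ => Real.log (pn S n)) atTop atTop :=
    tendsto_log.comp (tendsto_nth hS)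
  have t2 : Tendsto (fun n : ℕ => Real.log (pn S n) ^ 2) atTop atTop :=
    (tendsto_pow_atTop two_ne_zero).comp tL
  obtain ⟨n, hn, hn2⟩ := ((h1 1 one_pos).2.and_eventually (t2.eventually_ge_atTop (g : ℝ))).exists
  refine ⟨n, ?_⟩
  have h3 : (g : ℝ) ≤ gap S n := by
    simp only [sub_self, zero_mul, add_zero] at hn
    exact hn2.trans hn
  exact_mod_cast h3

theorem law {S : Set ℕ} (hS : S.Infinite)
    (h1 : ∀ ε : ℝ, 0 < ε → (∀ᶠ n in atTop, (gap S n : ℝ) <
        (Real.log (pn S n)) ^ 2 + (1 + ε) * Real.log (pn S n) *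
          Real.log (Real.log (Real.log (pn S n)))) ∧
      (∃ᶠ n in atTop, (Real.log (pn S n)) ^ 2 + (1 - ε) * Real.log (pn S n) *
          Real.log (Real.log (Real.log (pn S n))) ≤ gap S n))
    (h2 : ∀ ε : ℝ, 0 < ε → (∀ᶠ X : ℝ in atTop, Real.log X ^ 2 - Real.log X *
        (Real.log (Real.log X) + (1 + ε) * Real.log (Real.log (Real.log X))) < mg S X) ∧
      (∃ᶠ X : ℝ in atTop, (mg S X : ℝ) < Real.log X ^ 2 - Real.log X * (Real.log (Real.log X) +
        (1 - ε) * Real.log (Real.log (Real.log X))))) (ε : ℝ) (hε : 0 < ε) :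
    (∀ᶠ g : ℕ in atTop,
      Real.sqrt g - (1 / 2 + ε) * Real.log (Real.log (Real.sqrt g)) ≤ Real.log (pg S g) ∧
      Real.log (pg S g) ≤ Real.sqrt g + 1 / 2 * Real.log (Real.sqrt g) +
        (1 / 2 + ε) * Real.log (Real.log (Real.sqrt g))) ∧
    (∃ᶠ g : ℕ in atTop,
      Real.log (pg S g) ≤ Real.sqrt g - (1 / 2 - ε) * Real.log (Real.log (Real.sqrt g))) ∧
    (∃ᶠ g : ℕ in atTop, Real.sqrt g + 1 / 2 * Real.log (Real.sqrt g) +
        (1 / 2 - ε) * Real.log (Real.log (Real.sqrt g)) ≤ Real.log (pg S g)) := by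
  have tL : Tendsto (fun n : ℕ => Real.log (pn S n)) atTop atTop :=
    tendsto_log.comp (tendsto_nth hS)
  have tsq : Tendsto (fun g : ℕ => Real.sqrt g) atTop atTop :=
    Real.tendsto_sqrt_atTop.comp tendsto_natCast_atTop_atTop
  have hsq : ∀ g : ℕ, Real.sqrt g ^ 2 = g := fun g => Real.sq_sqrt (Nat.cast_nonneg g)
  -- large gaps exist
  have hex : ∀ g : ℕ, ∃ n, g ≤ gap S n := exists_gap hS h1
  have hpos : ∀ g : ℕ, 0 < pg S g := by
    intro g
    obtain ⟨n, hn, -⟩ := pg_spec (hex g)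
    rw [hn, diff_eq hS n]
    omega
  obtain ⟨ε₁, hε₁⟩ : ∃ e : ℝ, e = min ε (1 / 4) := ⟨_, rfl⟩
  have hε₁0 : 0 < ε₁ := by rw [hε₁]; positivity
  have hε₁1 : ε₁ ≤ 1 / 4 := by rw [hε₁]; exact min_le_right _ _
  have hε₁2 : ε₁ ≤ ε := by rw [hε₁]; exact min_le_left _ _
  refine ⟨?_, ?_, ?_⟩
  · -- all large g
    have hU1 : ∀ᶠ g : ℕ in atTop, Real.log (pg S g) ≤ Real.sqrt g +
        1 / 2 * Real.log (Real.sqrt g) + (1 / 2 + ε) * Real.log (Real.log (Real.sqrt g)) := by
      obtain ⟨X₀, hX₀⟩ := eventually_atTop.1 (h2 ε hε).1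
      filter_upwards [tsq.eventually (ev_U ε hε), tsq.eventually ev_facts,
        tsq.eventually_ge_atTop (X₀)] with g hg hf hgX
      obtain ⟨hs, hb1, hba, ha2, -⟩ := hf
      obtain ⟨L, hL⟩ : ∃ L, L = Real.sqrt g + 1 / 2 * Real.log (Real.sqrt g) +
        (1 / 2 + ε) * ll (Real.sqrt g) := ⟨_, rfl⟩
      have hg1 := hg L hL
      rw [hsq] at hg1
      have hsL : Real.sqrt g ≤ L := by
        rw [hL]
        have : 0 ≤ (1 / 2 + ε) * ll (Real.sqrt g) := mul_nonneg (by linarith) (by linarith)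
        linarith
      have hXL : X₀ ≤ Real.exp L := by
        have := Real.add_one_le_exp L
        linarith
      have h3 := hX₀ (Real.exp L) hXL
      rw [Real.log_exp] at h3
      have h4 : (g : ℝ) < mg S (Real.exp L) := hg1.trans h3
      have h5 : ∃ n, (pn S (n + 1) : ℝ) ≤ Real.exp L ∧ g ≤ gap S n := by
        by_contra hcon
        push Not at hcon
        have h6 : (mg S (Real.exp L) : ℝ) < (g : ℝ) + 1 := by
          apply mg_lt (by positivity)
          intro n hn
          have h7 := hcon n hn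
          have h8 := diff_eq hS n
          have h9 : pn S (n + 1) - pn S n < g + 1 := by omega
          exact_mod_cast h9
        have h7 : g + 1 ≤ mg S (Real.exp L) := by
          have : g < mg S (Real.exp L) := by exact_mod_cast h4
          omega
        have h8 : ((g + 1 : ℕ) : ℝ) ≤ mg S (Real.exp L) := by exact_mod_cast h7
        push_cast at h8
        linarith
      obtain ⟨n, hn1, hn2⟩ := h5
      have h6 : (pg S g : ℝ) ≤ Real.exp L := le_trans (by exact_mod_cast pg_le hn2) hn1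
      have h7 : Real.log (pg S g) ≤ L := by
        rw [← Real.log_exp L]
        exact Real.log_le_log (by exact_mod_cast hpos g) h6
      rw [hL] at h7
      exact h7
    have hL1 : ∀ᶠ g : ℕ in atTop, Real.sqrt g - (1 / 2 + ε) *
        Real.log (Real.log (Real.sqrt g)) ≤ Real.log (pg S g) := by
      obtain ⟨N₀, hN₀⟩ := eventually_atTop.1 ((h1 (2 * ε) (by linarith)).1.and
        (tL.eventually (ev_L (2 * ε) (by linarith))))
      filter_upwards [eventually_gt_atTop (∑ n ∈ Finset.range N₀, gap S n),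
        tsq.eventually_ge_atTop 100] with g hg hg100
      obtain ⟨n, hn1, hn2⟩ := pg_spec (hex g)
      have hnN : N₀ ≤ n := by
        by_contra hcon
        push Not at hcon
        have h3 : gap S n ≤ ∑ n ∈ Finset.range N₀, gap S n :=
          Finset.single_le_sum (f := fun n => gap S n) (fun _ _ => Nat.zero_le _)
            (Finset.mem_range.2 hcon)
        omega
      obtain ⟨h3, h4⟩ := hN₀ n hnN
      have h5 : Real.log (pn S n) ≤ Real.log (pg S g) := by
        rcases Nat.eq_zero_or_pos (pn S n) with h6 | h6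
        · rw [h6, Nat.cast_zero, Real.log_zero]
          apply Real.log_nonneg
          exact_mod_cast hpos g
        · apply Real.log_le_log (by exact_mod_cast h6)
          have h7 := diff_eq hS n
          have h8 : pn S n ≤ pg S g := by omega
          exact_mod_cast h8
      have h6 : Real.sqrt g ^ 2 ≤ Real.log (pn S n) ^ 2 + (1 + 2 * ε) * Real.log (pn S n) *
          ll (Real.log (pn S n)) := by
        rw [hsq]
        have h7 : (g : ℝ) ≤ gap S n := by exact_mod_cast hn2
        exact h7.trans h3.le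
      have h7 := h4 (Real.sqrt g) (Real.log (pg S g)) h5 (Real.sqrt_nonneg _) h6 hg100
      have h8 : (1 / 2 + ε) * Real.log (Real.log (Real.sqrt g)) =
          1 / 2 * (1 + 2 * ε) * ll (Real.sqrt g) := by rw [ll_def]; ring
      rw [h8]
      exact h7
    exact hL1.and hU1
  · -- the lower bound is attained
    rw [frequently_atTop]
    intro G₀
    have t2 : Tendsto (fun n : ℕ => Real.log (pn S n) ^ 2) atTop atTop :=
      (tendsto_pow_atTop two_ne_zero).comp tL
    obtain ⟨n, hn, hn1, hn2, hn3, hn4, hn5, hn6⟩ := ((h1 ε₁ hε₁0).2.and_eventually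
      (((h1 1 one_pos).1.and ((tL.eventually (ev_L' ε₁ hε₁0 hε₁1)).and
      ((t2.eventually_ge_atTop (G₀ : ℝ)).and ((tL.eventually ev_facts).and
        ((t2.eventually_ge_atTop (10000 : ℝ)).and (eventually_ge_atTop 1)))))))).exists
    obtain ⟨f1, f2, f3, f4, -⟩ := hn4
    obtain ⟨g, hg⟩ : ∃ g, g = gap S n := ⟨_, rfl⟩
    have hmul : 0 ≤ (1 - ε₁) * Real.log (pn S n) * Real.log (Real.log (Real.log (pn S n))) := by
      have f2' : 0 ≤ Real.log (Real.log (Real.log (pn S n))) := by
        have := f2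
        rw [ll_def] at this
        linarith
      exact mul_nonneg (mul_nonneg (by linarith) (by linarith)) f2'
    have hgG : (G₀ : ℝ) ≤ g := by
      rw [hg]
      linarith
    have hg1 : (10000 : ℝ) ≤ g := by
      rw [hg]
      linarith
    refine ⟨g, by exact_mod_cast hgG, ?_⟩
    have h3 : Real.log (pn S n) ^ 2 + (1 - ε₁) * Real.log (pn S n) * ll (Real.log (pn S n)) ≤
        Real.sqrt g ^ 2 := by
      rw [hsq, hg]
      exact hn
    have h4 : Real.sqrt g ^ 2 ≤ Real.log (pn S n) ^ 2 + 2 * Real.log (pn S n) *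
        ll (Real.log (pn S n)) := by
      rw [hsq, hg]
      have := hn1.le
      have h5 : (1 + 1 : ℝ) = 2 := by norm_num
      rw [h5] at this
      exact this
    have h5 := hn2 (Real.sqrt g) (Real.sqrt_nonneg _) h3 h4
    have hpn : 0 < pn S n := by
      rcases Nat.eq_zero_or_pos (pn S n) with h6 | h6
      · rw [h6, Nat.cast_zero, Real.log_zero] at f1
        norm_num at f1
      · exact h6
    have h6 : (pg S g : ℝ) ≤ Real.exp (Real.log (pn S n)) + Real.sqrt g ^ 2 + 1 := by
      rw [hsq, Real.exp_log (by exact_mod_cast hpn)]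
      have h7 : pg S g ≤ pn S (n + 1) := pg_le (by rw [hg])
      rw [diff_eq hS n, ← hg] at h7
      exact_mod_cast h7
    have h7 : Real.log (pg S g) ≤ Real.sqrt g - (1 / 2 - ε₁) * ll (Real.sqrt g) :=
      (Real.log_le_log (by exact_mod_cast hpos g) h6).trans h5
    have h8 : 0 ≤ ll (Real.sqrt g) := by
      have h9 : (100 : ℝ) ≤ Real.sqrt g := by
        apply Real.le_sqrt_of_sq_le
        calc (100 : ℝ) ^ 2 = 10000 := by norm_num
          _ ≤ g := hg1
      rw [ll_def]
      apply Real.log_nonneg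
      rw [← Real.log_exp 1]
      apply Real.log_le_log (Real.exp_pos 1)
      have := Real.exp_one_lt_d9
      linarith
    have h9 : (1 / 2 - ε) * ll (Real.sqrt g) ≤ (1 / 2 - ε₁) * ll (Real.sqrt g) :=
      mul_le_mul_of_nonneg_right (by linarith) h8
    rw [ll_def] at h7 h9
    linarith
  · -- the upper bound is attained
    rw [frequently_atTop]
    intro G₀
    have hlog := Real.tendsto_log_atTop
    obtain ⟨X, hX, hX1, hX2, hX3, hX4, hX5⟩ := ((h2 (2 * ε₁) (by linarith)).2.and_eventually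
      ((hlog.eventually (ev_U' (2 * ε₁) (by linarith) (by linarith))).and
      ((hlog.eventually ev_facts).and ((hlog.eventually (ev_logsq 2 1 one_pos)).and
      ((hlog.eventually_ge_atTop ((G₀ : ℝ) + 10001)).and (eventually_gt_atTop (0 : ℝ))))))).exists
    obtain ⟨f1, f2, f3, f4, -⟩ := hX2
    obtain ⟨L, hL⟩ : ∃ L, L = Real.log X := ⟨_, rfl⟩
    rw [← hL] at hX hX1 f1 f2 f3 f4 hX3 hX4
    obtain ⟨Y, hY⟩ : ∃ Y, Y = L ^ 2 - L * (Real.log L + (1 - 2 * ε₁) * ll L) := ⟨_, rfl⟩
    have hXY : (mg S X : ℝ) < Y := by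
      rw [hY]
      exact hX
    have hYL : L ≤ Y := by
      have h3 : (1 - 2 * ε₁) * ll L ≤ 1 * Real.log L :=
        mul_le_mul (by linarith) f3 (by linarith) (by norm_num)
      have h4 : L * (Real.log L + (1 - 2 * ε₁) * ll L) ≤ L * (2 * Real.log L) :=
        mul_le_mul_of_nonneg_left (by linarith) (by linarith)
      have h5 : L * (2 * Real.log L) ≤ L * (L - 1) := by
        apply mul_le_mul_of_nonneg_left _ (by linarith)
        nlinarith
      rw [hY]
      nlinarith
    obtain ⟨g, hg⟩ : ∃ g, g = ⌈Y⌉₊ := ⟨_, rfl⟩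
    have hY0 : 0 ≤ Y := by linarith
    have hg1 : Y ≤ g := by rw [hg]; exact Nat.le_ceil _
    have hg2 : (g : ℝ) < Y + 1 := by rw [hg]; exact Nat.ceil_lt_add_one hY0
    have hgG : (G₀ : ℝ) ≤ g := by linarith
    refine ⟨g, by exact_mod_cast hgG, ?_⟩
    have h9 : (100 : ℝ) ≤ Real.sqrt g := by
      apply Real.le_sqrt_of_sq_le
      have : (0 : ℝ) ≤ G₀ := Nat.cast_nonneg _
      calc (100 : ℝ) ^ 2 = 10000 := by norm_num
        _ ≤ g := by linarith
    have h3 := hX1 (Real.sqrt g) h9 (by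
      rw [hsq, ← hY]
      exact hg2.le)
    have h4 : X < pg S g := by
      by_contra hcon
      push Not at hcon
      obtain ⟨n, hn1, hn2⟩ := pg_spec (hex g)
      rw [hn1] at hcon
      have h5 := le_mg hcon
      have h6 := diff_eq hS n
      have h7 : g < mg S X := by omega
      have h8 : (g : ℝ) < mg S X := by exact_mod_cast h7
      linarith
    have h5 : L ≤ Real.log (pg S g) := by
      rw [hL]
      exact Real.log_le_log hX5 h4.le
    have h8 : 0 ≤ ll (Real.sqrt g) := by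
      rw [ll_def]
      apply Real.log_nonneg
      rw [← Real.log_exp 1]
      apply Real.log_le_log (Real.exp_pos 1)
      have := Real.exp_one_lt_d9
      linarith
    have h10 : (1 / 2 - ε) * ll (Real.sqrt g) ≤ 1 / 2 * (1 - 2 * ε₁) * ll (Real.sqrt g) := by
      apply mul_le_mul_of_nonneg_right _ h8
      linarith
    rw [ll_def] at h3 h10
    linarith

/-- Shanks' relation -/
theorem equiv_of_law {S : Set ℕ} (h : ∀ᶠ g : ℕ in atTop,
      Real.sqrt g - (1 / 2 + 1) * Real.log (Real.log (Real.sqrt g)) ≤ Real.log (pg S g) ∧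
      Real.log (pg S g) ≤ Real.sqrt g + 1 / 2 * Real.log (Real.sqrt g) +
        (1 / 2 + 1) * Real.log (Real.log (Real.sqrt g))) :
    Tendsto (fun g : ℕ => Real.log (pg S g) / Real.sqrt g) atTop (𝓝 1) := by
  have tsq : Tendsto (fun g : ℕ => Real.sqrt g) atTop atTop :=
    Real.tendsto_sqrt_atTop.comp tendsto_natCast_atTop_atTop
  rw [Metric.tendsto_atTop']
  intro ε hε
  have h2 := tsq.eventually (ev_logsq 2 ε hε)
  obtain ⟨N, hN⟩ := eventually_atTop.1 (h.and ((tsq.eventually ev_facts).and h2))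
  refine ⟨N, fun g hg => ?_⟩
  obtain ⟨⟨h3, h4⟩, ⟨f1, f2, f3, f4, -⟩, h5⟩ := hN g hg.le
  rw [ll_def] at f2 f3
  have hs : 0 < Real.sqrt g := by linarith
  rw [Real.dist_eq, abs_lt, lt_sub_iff_add_lt, sub_lt_iff_lt_add, lt_div_iff₀ hs, div_lt_iff₀ hs]
  constructor
  · nlinarith
  · nlinarith

end Pool.Agent.R502.SH
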